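import Pool.Agent.Helper35.CL.StA

/-!
# Project CL, module BR: the barrier
-/

set_option autoImplicit false

namespace Pool.Agent.Helper4.CL

open Pool.Agent.Helper35.CL Helper32.CL Helper35.PI Helper35.PI2
open scoped ContDiff Manifold Topology ENNReal BigOperators
open MeasureTheory Set Filter

theorem CST_slice {M V : Type} [TopologicalSpace M] [TopologicalSpace V] {g : M → ℝ → V}
    (hg : CST g) {t : ℝ} (ht : t < 0) : Continuous (fun q => g q t) := by
  have h : Continuous (fun q : M => ((q, t) : M × ℝ)) := by fun_prop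
  exact ContinuousOn.comp_continuous hg h (fun q => ⟨mem_univ _, ht⟩)

theorem hBR (hBP : StBP) (hTD : StTD) (hFV : StFV) (hFS : StFS) (hCN : StCN) (hMU : StMU) :
    StBR := by
  intro N M _ _ _ _ _ _ _ F c χ hS y R t₁ t₂ hR h12 h2 hb
  have hmcf := hS.mcf
  obtain ⟨hexC, hder, hX⟩ := hBP N M F hmcf y R
  obtain ⟨hF, hH, -, -⟩ := hCN N M F hmcf
  obtain ⟨s, -, hmu⟩ := hMU 2 N M F c χ hS
  set g : M → ℝ → ℝ := fun q t => ex F y R q t ^ 3 with hg
  set g' : M → ℝ → ℝ := fun q t =>
    6 * ex F y R q t ^ 2 * inner ℝ (F q t - y) (HH (n := 2) F q t) with hg'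
  have hgC : CST g := ContinuousOn.pow hexC 3
  have hgC' : CST g' := by
    have h1 : ContinuousOn (fun z : M × ℝ => F z.1 z.2 - y) (univ ×ˢ Iio 0) :=
      ContinuousOn.sub hF continuousOn_const
    have h2 := ContinuousOn.inner (𝕜 := ℝ) h1 hH
    exact (continuousOn_const.mul (ContinuousOn.pow hexC 2)).mul h2
  have hD := (hTD 2 N M F c χ hS).2 g g' hgC hgC' (fun q t ht => hder q t ht)
  set e : ℝ → ℝ := fun t => ∫ q, g q t ∂muM 2 F c χ t with he
  have hneg : ∀ t < 0, ∫ q, (g' q t - ‖HH (n := 2) F q t‖ ^ 2 * g q t) ∂muM 2 F c χ t ≤ 0 := by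
    intro t ht
    obtain ⟨hXc, hXle⟩ := hX t ht
    obtain ⟨hdc, hd0⟩ := hFV 2 N M F c χ hS t ht _ hXc
    have hHc : Continuous (fun q => HH (n := 2) F q t) := CST_slice hH ht
    have hgc : Continuous (fun q => g q t) := CST_slice hgC ht
    have hgc' : Continuous (fun q => g' q t) := CST_slice hgC' ht
    have hXcc : Continuous (fun q => ex F y R q t ^ 2 • (F q t - y)) := hXc.continuous
    have hi1 := ((hmu t ht).2.2 (fun q => g' q t - ‖HH (n := 2) F q t‖ ^ 2 * g q t)
      (hgc'.sub ((hHc.norm.pow 2).mul hgc))).1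
    have hi2 := ((hmu t ht).2.2 (fun q => 6 *
      (dvg (n := 2) F (fun q => ex F y R q t ^ 2 • (F q t - y)) q t
          + inner ℝ (HH (n := 2) F q t) (ex F y R q t ^ 2 • (F q t - y))))
      (continuous_const.mul (hdc.add (Continuous.inner hHc hXcc)))).1
    calc ∫ q, (g' q t - ‖HH (n := 2) F q t‖ ^ 2 * g q t) ∂muM 2 F c χ t
        ≤ ∫ q, 6 * (dvg (n := 2) F (fun q => ex F y R q t ^ 2 • (F q t - y)) q t
          + inner ℝ (HH (n := 2) F q t) (ex F y R q t ^ 2 • (F q t - y))) ∂muM 2 F c χ t := by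
          refine integral_mono hi1 hi2 fun q => ?_
          have h3 : 0 ≤ ‖HH (n := 2) F q t‖ ^ 2 * g q t := by
            have : 0 ≤ ex F y R q t := le_max_left _ _
            simp only [hg]
            positivity
          have h4 := hXle q
          simp only [hg'] at *
          linarith
      _ = 0 := by
          rw [integral_const_mul, hd0, mul_zero]
  have hanti : AntitoneOn e (Icc t₁ t₂) := by
    refine antitoneOn_of_deriv_nonpos (convex_Icc _ _) ?_ ?_ ?_
    · intro t ht
      exact (hD t (lt_of_le_of_lt ht.2 h2)).continuousAt.continuousWithinAt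
    · intro t ht
      rw [interior_Icc] at ht
      exact (hD t (ht.2.trans h2)).differentiableAt.differentiableWithinAt
    · intro t ht
      rw [interior_Icc] at ht
      have h3 := (hD t (ht.2.trans h2)).deriv
      change deriv e t ≤ 0
      rw [show deriv e t = _ from h3]
      exact hneg t (ht.2.trans h2)
  have he1 : e t₁ = 0 := by
    have h3 : ∀ q, g q t₁ = 0 := by
      intro q
      have h4 : ‖F q t₁ - y‖ ^ 2 ≤ R ^ 2 := pow_le_pow_left₀ (norm_nonneg _) (hb q) 2
      have h5 : ex F y R q t₁ = 0 := max_eq_left (by linarith)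
      simp only [hg, h5]
      norm_num
    simp only [he, h3, integral_zero]
  have hnn : ∀ q, 0 ≤ g q t₂ := by
    intro q
    have : 0 ≤ ex F y R q t₂ := le_max_left _ _
    simp only [hg]
    positivity
  have he2 : e t₂ = 0 := by
    have h3 : e t₂ ≤ e t₁ := hanti ⟨le_refl _, h12⟩ ⟨h12, le_refl _⟩ h12
    have h4 : 0 ≤ e t₂ := integral_nonneg hnn
    linarith
  have hz := hFS 2 N M F c χ hS t₂ h2 (fun q => g q t₂) (CST_slice hgC h2) hnn he2
  intro q
  by_contra hcon
  push Not at hcon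
  have h3 : R ^ 2 < ‖F q t₂ - y‖ ^ 2 := pow_lt_pow_left₀ hcon hR (by norm_num)
  have h4 : 0 < ex F y R q t₂ := lt_max_of_lt_right (by linarith)
  have h5 : ex F y R q t₂ ^ 3 = 0 := hz q
  have h6 : 0 < ex F y R q t₂ ^ 3 := by positivity
  linarith

end Pool.Agent.Helper4.CL
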