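import Mathlib
import Pool.Agent.Helper32.CL.St3

/-!
Module EW of project CL: the energy of `W`.
-/

set_option autoImplicit false

namespace Pool.Agent.Helper4.CL

open Helper32.CL Helper35.PI Helper35.PI2 Pool.Agent.Helper35.CL
open scoped ContDiff Manifold Topology ENNReal BigOperators
open MeasureTheory Set Filter

section Cst

variable {M : Type} [TopologicalSpace M]

theorem cst_add {g h : M → ℝ → ℝ} (hg : CST g) (hh : CST h) :
    CST (fun q t => g q t + h q t) := ContinuousOn.add hg hh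

theorem cst_sub {g h : M → ℝ → ℝ} (hg : CST g) (hh : CST h) :
    CST (fun q t => g q t - h q t) := ContinuousOn.sub hg hh

theorem cst_mul {g h : M → ℝ → ℝ} (hg : CST g) (hh : CST h) :
    CST (fun q t => g q t * h q t) := ContinuousOn.mul hg hh

theorem cst_time (φ : ℝ → ℝ) (hφ : Continuous φ) : CST (fun (_ : M) t => φ t) :=
  (hφ.comp continuous_snd).continuousOn

theorem cst_slice {g : M → ℝ → ℝ} (hg : CST g) {t : ℝ} (ht : t < 0) :
    Continuous (fun q => g q t) := by
  have h1 : ContinuousOn (fun q : M => ((q, t) : M × ℝ)) univ :=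
    (Continuous.prodMk continuous_id continuous_const).continuousOn
  have h2 := ContinuousOn.comp (g := fun z : M × ℝ => g z.1 z.2) hg h1
    (fun q _ => ⟨mem_univ _, ht⟩)
  exact continuousOn_univ.mp h2

end Cst

theorem smooth_cphi (φ : ℝ × ℝ × ℝ × ℝ → ℝ) (h : ContDiff ℝ ∞ φ) : (cφ φ).Smooth :=
  ⟨h, contDiff_const, contDiff_const, contDiff_const⟩

theorem hEW (hMU : StMU) (hTD : StTD) (hFV : StFV) (hML : StML) (hGA : StGA)
    (hCN : StCN) : StEW := by
  intro N M _ _ _ _ _ _ _ F c χ hS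
  have hF := hS.mcf
  have s4 : (cφ (fun p : ℝ × ℝ × ℝ × ℝ => p.2.2.2)).Smooth :=
    smooth_cphi _ (by fun_prop)
  have s2 : (cφ (fun p : ℝ × ℝ × ℝ × ℝ => p.2.1)).Smooth :=
    smooth_cphi _ (by fun_prop)
  obtain ⟨-, -, -, -, hA0, hA1, hA2, -⟩ := hML 2 N M F hF 0 0 _ s4
  obtain ⟨-, -, -, -, hB0, hB1, hB2, -⟩ := hML 2 N M F hF 0 1 _ s4
  obtain ⟨-, -, -, -, hY0, hY1, hY2, -⟩ := hML 2 N M F hF 0 0 _ s2
  -- names for the functions
  set a : M → ℝ → ℝ := fun q t => ‖wvF 2 0 F q t‖ ^ 2 with ha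
  set b : M → ℝ → ℝ := fun q t => ‖wvF 2 1 F q t‖ ^ 2 with hb
  set Y : M → ℝ → ℝ := fun q t => ‖HH (n := 2) F q t‖ ^ 2 with hY
  set a' : M → ℝ → ℝ := fun q t => deriv (fun s => a q s) t with ha'
  set b' : M → ℝ → ℝ := fun q t => deriv (fun s => b q s) t with hb'
  set Y' : M → ℝ → ℝ := fun q t => deriv (fun s => Y q s) t with hY'
  have ca : CST a := hA0
  have ca' : CST a' := hA1
  have da : ∀ q, ∀ t < 0, HasDerivAt (a q) (a' q t) t := hA2
  have cb : CST b := hB0
  have cb' : CST b' := hB1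
  have db : ∀ q, ∀ t < 0, HasDerivAt (b q) (b' q t) t := hB2
  have cY : CST Y := hY0
  have cY' : CST Y' := hY1
  have dY : ∀ q, ∀ t < 0, HasDerivAt (Y q) (Y' q t) t := hY2
  have hW : ∀ l q, ∀ t < 0, wvF 2 l F q t = wvF 2 0 F q t + l • HH (n := 2) F q t :=
    fun l q t ht => ((hML 2 N M F hF 0 l _ s4).2.2.2.2.2.2.2 q t ht).1
  have hin : ∀ q, ∀ t < 0, 2 * (inner ℝ (wvF 2 0 F q t) (HH (n := 2) F q t) : ℝ)
      = b q t - a q t - Y q t := by
    intro q t ht
    have h1 := hW 1 q t ht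
    have h2 : b q t = ‖wvF 2 0 F q t + HH (n := 2) F q t‖ ^ 2 := by
      rw [hb]; simp only []; rw [h1, one_smul]
    rw [h2, norm_add_sq_real]
    simp only [ha, hY]
    ring
  have hexp : ∀ l q, ∀ t < 0, ‖wvF 2 l F q t‖ ^ 2
      = a q t + l * (b q t - a q t - Y q t) + l ^ 2 * Y q t := by
    intro l q t ht
    rw [hW l q t ht, norm_add_sq_real, ← hin q t ht, norm_smul, inner_smul_right, mul_pow,
      Real.norm_eq_abs, sq_abs]
    simp only [ha, hY]
    ring
  -- the function `g`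
  set g : M → ℝ → ℝ := fun q t =>
    a q t + -2 * t * (b q t - a q t - Y q t) + (-2 * t) ^ 2 * Y q t with hg
  have hwg : ∀ q, ∀ t < 0, wF F q t = g q t := by
    intro q t ht
    exact hexp (-2 * t) q t ht
  set g' : M → ℝ → ℝ := fun q t =>
    a' q t + (-2 * (b q t - a q t - Y q t) + -2 * t * (b' q t - a' q t - Y' q t))
      + (8 * t * Y q t + (-2 * t) ^ 2 * Y' q t) with hg'
  have dg : ∀ q, ∀ t < 0, HasDerivAt (g q) (g' q t) t := by
    intro q t ht
    have e1 : HasDerivAt (fun s : ℝ => -2 * s) (-2) t := by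
      simpa using (hasDerivAt_id t).const_mul (-2)
    have e2 : HasDerivAt (fun s : ℝ => (-2 * s) ^ 2) (8 * t) t := by
      have := e1.pow 2
      refine this.congr_deriv ?_
      simp; ring
    have e3 := ((db q t ht).sub (da q t ht)).sub (dY q t ht)
    have e4 := (da q t ht).add (e1.mul e3)
    have e5 := e4.add (e2.mul (dY q t ht))
    refine e5.congr_deriv ?_
    simp only [hg', Pi.sub_apply]
  have cl : CST (fun (_ : M) t => -2 * t) := cst_time _ (by fun_prop)
  have cl2 : CST (fun (_ : M) t => (-2 * t) ^ 2) := cst_time _ (by fun_prop)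
  have cg : CST g :=
    cst_add (cst_add ca (cst_mul cl (cst_sub (cst_sub cb ca) cY))) (cst_mul cl2 cY)
  have cg' : CST g' :=
    cst_add (cst_add ca' (cst_add
      (cst_mul (cst_time (fun _ => -2) continuous_const) (cst_sub (cst_sub cb ca) cY))
      (cst_mul cl (cst_sub (cst_sub cb' ca') cY'))))
      (cst_add (cst_mul (cst_time (fun t => 8 * t) (by fun_prop)) cY) (cst_mul cl2 cY'))
  obtain ⟨cF, cH, cA, cW⟩ := hCN N M F hF
  have cw : CST (fun q t => wF F q t) := by
    have := cW (fun t => -2 * t) (by fun_prop)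
    exact (ContinuousOn.norm this).pow 2
  have cth : CST (fun q t => thF 2 F q t) := by
    have h1 : CST (fun q t => ‖HH (n := 2) F q t‖ ^ 2) := (ContinuousOn.norm cH).pow 2
    exact cst_sub (cst_mul (cst_time (fun _ => 2) continuous_const) cA) h1
  obtain ⟨td1, td2⟩ := hTD 2 N M F c χ hS
  obtain ⟨sF, -, hmu⟩ := hMU 2 N M F c χ hS
  -- pointwise identity
  have key : ∀ q, ∀ t < 0, g' q t - Y q t * g q t
      = (thF 2 F q t * wF F q t - 2 * g1F F q t)
        + dvg (n := 2) F (WFd 2 0 (-2 * t) (cφ (fun p => p.2.2.2)) F t) q t := by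
    intro q t ht
    have e1 : deriv (fun s => ‖wvF 2 (-2 * t) F q s‖ ^ 2) t
        = a' q t + (-2 * t) * (b' q t - a' q t - Y' q t) + (-2 * t) ^ 2 * Y' q t := by
      have h1 : (fun s => ‖wvF 2 (-2 * t) F q s‖ ^ 2) =ᶠ[𝓝 t]
          (fun s => a q s + (-2 * t) * (b q s - a q s - Y q s) + (-2 * t) ^ 2 * Y q s) := by
        filter_upwards [Iio_mem_nhds ht] with s hs
        exact hexp (-2 * t) q s hs
      rw [h1.deriv_eq]
      have e3 := ((db q t ht).sub (da q t ht)).sub (dY q t ht)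
      exact (((da q t ht).add (e3.const_mul (-2 * t))).add
        ((dY q t ht).const_mul ((-2 * t) ^ 2))).deriv
    have e2 : (inner ℝ (HH (n := 2) F q t) (wvF 2 (-2 * t) F q t) : ℝ)
        = (b q t - a q t - Y q t) / 2 + (-2 * t) * Y q t := by
      rw [hW (-2 * t) q t ht, inner_add_right, inner_smul_right, real_inner_self_eq_norm_sq,
        real_inner_comm]
      have := hin q t ht
      simp only [hY] at this ⊢
      linarith
    have e3 := hwg q t ht
    unfold g1F thF
    rw [e1, e2, e3]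
    simp only [hg', hg, hY]
    ring
  -- integrability at one time
  have iA : ∀ t < 0, Integrable (fun q => thF 2 F q t * wF F q t) (muM 2 F c χ t) :=
    fun t ht => ((hmu t ht).2.2 _ (cst_slice (cst_mul cth cw) ht)).1
  have iB : ∀ t < 0, Integrable (fun q => 2 * g1F F q t) (muM 2 F c χ t) :=
    fun t ht => ((hmu t ht).2.2 _ (((hGA N M F hF t ht).1).const_mul 2)).1
  have hdv : ∀ t < 0, Integrable (fun q =>
        dvg (n := 2) F (WFd 2 0 (-2 * t) (cφ (fun p => p.2.2.2)) F t) q t) (muM 2 F c χ t)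
      ∧ ∫ q, dvg (n := 2) F (WFd 2 0 (-2 * t) (cφ (fun p => p.2.2.2)) F t) q t
          ∂muM 2 F c χ t = 0 := by
    intro t ht
    obtain ⟨-, -, -, -, h5, h6⟩ := hGA N M F hF t ht
    obtain ⟨h7, h8⟩ := hFV 2 N M F c χ hS t ht _ h5
    refine ⟨((hmu t ht).2.2 _ h7).1, ?_⟩
    simpa only [h6, add_zero] using h8
  have hint : ∀ t < 0, ∫ q, (g' q t - Y q t * g q t) ∂muM 2 F c χ t
      = ∫ q, (thF 2 F q t * wF F q t - 2 * g1F F q t) ∂muM 2 F c χ t := by
    intro t ht
    have h1 : ∫ q, (g' q t - Y q t * g q t) ∂muM 2 F c χ t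
        = ∫ q, ((thF 2 F q t * wF F q t - 2 * g1F F q t)
          + dvg (n := 2) F (WFd 2 0 (-2 * t) (cφ (fun p => p.2.2.2)) F t) q t)
            ∂muM 2 F c χ t := integral_congr_ae (Eventually.of_forall fun q => key q t ht)
    have i1 : Integrable (fun q => thF 2 F q t * wF F q t - 2 * g1F F q t)
        (muM 2 F c χ t) := (iA t ht).sub (iB t ht)
    rw [h1, integral_add i1 (hdv t ht).1, (hdv t ht).2, add_zero]
  refine ⟨cw, ?_, ?_⟩
  · -- continuity of the integral of `g1F`
    have c1 := td1 _ (cst_mul cth cw)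
    have c2 := td1 _ (cst_sub cg' (cst_mul cY cg))
    have c3 : ContinuousOn (fun t => 1 / 2 * ((∫ q, thF 2 F q t * wF F q t ∂muM 2 F c χ t)
        - ∫ q, (g' q t - Y q t * g q t) ∂muM 2 F c χ t)) (Iio 0) :=
      (c1.sub c2).const_mul _
    refine c3.congr ?_
    intro t ht
    have h1 := hint t ht
    rw [integral_sub (iA t ht) (iB t ht), integral_const_mul] at h1
    simp only []
    rw [h1]
    ring
  · intro t ht
    have h1 := td2 g g' cg cg' dg t ht
    have h2 : (fun t => ∫ q, wF F q t ∂muM 2 F c χ t) =ᶠ[𝓝 t]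
        (fun t => ∫ q, g q t ∂muM 2 F c χ t) := by
      filter_upwards [Iio_mem_nhds ht] with s hs
      exact integral_congr_ae (Eventually.of_forall fun q => hwg q s hs)
    have h3 := h1.congr_of_eventuallyEq h2
    exact h3.congr_deriv (hint t ht)

end Pool.Agent.Helper4.CL
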