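import Pool.Agent.Helper26.CL.St
import Pool.Agent.Helper84.LE.M_Transl

/-!
# Project CM, module Mp: images of configurations under a bijection of the vertices
-/

set_option autoImplicit false

open scoped BigOperators ENNReal Topology
open Pool.LE Pool.NL Filter

namespace Pool.CN

theorem hMp : StMp := by
  intro V _ φ E p
  have h1 : ∀ f : Finset (Sym2 V) → ℝ, ex (mpE φ E) p f = ex E p (fun ω => f (mpE φ ω)) := by
    intro f
    unfold ex mpE
    rw [Ex_map]
  have h2 : ∀ (ω : Finset (Sym2 V)) (x y : V), con (mpE φ ω) (φ x) (φ y) ↔ con ω x y :=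
    fun ω x y => tsl_con φ ω x y
  refine ⟨h1, h2, fun x y => ?_⟩
  have h3 := h1 (fun ω => ind (con ω (φ x) (φ y)))
  simp only [h2] at h3
  exact h3

end Pool.CN
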